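import Pool.Agent.W516.KU.Defs

/-! KU-DU (helper516): the highest weight element and the lowest weight element. -/

set_option autoImplicit false

namespace Pool.Agent.W688.KU.DU

open Module Pool.Agent.W516.K3 Pool.Agent.W516.KU

section

variable {T : Type} [AddCommGroup T] [Module ℝ T]

lemma wdg_apply (b : T →ₗ[ℝ] T →ₗ[ℝ] ℝ) (u v t : T) :
    wdg b u v t = b v t • u - b u t • v := rfl

lemma xx_apply (b : T →ₗ[ℝ] T →ₗ[ℝ] ℝ) (J : Module.End ℝ T) (u v t : T) :
    xx b J u v t = (b v t • u - b u t • v) + (b (J v) t • J u - b (J u) t • J v) := rfl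

lemma xx_zero_right (b : T →ₗ[ℝ] T →ₗ[ℝ] ℝ) (J : Module.End ℝ T) (u : T) : xx b J u 0 = 0 := by
  ext t
  simp [xx_apply]

lemma xx_neg_left (b : T →ₗ[ℝ] T →ₗ[ℝ] ℝ) (J : Module.End ℝ T) (u v : T) :
    xx b J (-u) v = -xx b J u v := by
  ext t
  simp only [xx_apply, map_neg, LinearMap.neg_apply]
  module

lemma xx_neg_right (b : T →ₗ[ℝ] T →ₗ[ℝ] ℝ) (J : Module.End ℝ T) (u v : T) :
    xx b J u (-v) = -xx b J u v := by
  ext t
  simp only [xx_apply, map_neg, LinearMap.neg_apply]
  module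

/-- the commutator with a skew endomorphism commuting with `J` -/
lemma comm_xx (b : T →ₗ[ℝ] T →ₗ[ℝ] ℝ) (J x : Module.End ℝ T)
    (hs : ∀ u v, b (x u) v + b u (x v) = 0) (hJ : x * J = J * x) (u v : T) :
    x * xx b J u v - xx b J u v * x = xx b J (x u) v + xx b J u (x v) := by
  have hJ' : ∀ w, x (J w) = J (x w) := fun w => LinearMap.congr_fun hJ w
  have hs' : ∀ u v, b u (x v) = -b (x u) v := fun u v => by linarith [hs u v]
  ext t
  simp only [LinearMap.sub_apply, Module.End.mul_apply, LinearMap.add_apply, xx_apply, map_add,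
    map_sub, map_smul, hs', hJ']
  module

lemma trace_zero [FiniteDimensional ℝ T] (h A B : Module.End ℝ T) (k l : ℝ)
    (hA : h * A - A * h = k • A) (hB : h * B - B * h = l • B) (hkl : k + l ≠ 0) :
    LinearMap.trace ℝ T (A * B) = 0 := by
  have h1 : h * (A * B) - (A * B) * h = (k + l) • (A * B) := by
    have e1 : h * (A * B) - (A * B) * h = (h * A - A * h) * B + A * (h * B - B * h) := by
      noncomm_ring
    rw [e1, hA, hB, smul_mul_assoc, mul_smul_comm, add_smul]
  have h2 := congrArg (LinearMap.trace ℝ T) h1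
  rw [map_sub, LinearMap.trace_mul_comm ℝ h (A * B), sub_self, map_smul, smul_eq_mul] at h2
  rcases mul_eq_zero.mp h2.symm with h3 | h3
  · exact absurd h3 hkl
  · exact h3

end

theorem T_DU : S_GR → S_DU := by
  intro hGR T _ _ _ b J g hg e f hef hh
  have hH := hg.herm
  have hJJ : ∀ w, J (J w) = -w := fun w => by
    have := LinearMap.congr_fun hH.sq w
    simpa using this
  -- values of `b`
  have bJl : ∀ u v, b (J u) v = -b u (J v) := by
    intro u v
    have h1 := hH.isom u (J v)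
    rw [hJJ, map_neg] at h1
    linarith
  have bJs : ∀ u, b (J u) u = 0 := by
    intro u
    have h1 := bJl u u
    rw [hH.symm u (J u)] at h1
    linarith
  have bfe : b f e = 1 := by rw [hH.symm]; exact hef.ef
  have bJfe : b (J f) e = 0 := by rw [hH.symm]; exact hef.eJf
  have bJef : b (J e) f = 0 := by rw [bJl, hef.eJf, neg_zero]
  have bfJe : b f (J e) = 0 := by rw [hH.symm]; exact bJef
  obtain ⟨h, hhdef⟩ : ∃ h, h = xx b J e f := ⟨_, rfl⟩
  rw [← hhdef] at hh
  have he : h e = e := by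
    rw [hhdef, xx_apply, bfe, hef.ee, bJfe, bJs]; simp
  have hf : h f = -f := by
    rw [hhdef, xx_apply, hef.ff, hef.ef, bJs, bJef]; simp
  have hcJ := hg.commJ h hh
  have hJ' : ∀ w, h (J w) = J (h w) := fun w => LinearMap.congr_fun hcJ w
  have hsk := hg.skew h hh
  have h0 : ∀ t ∈ T0 b J e f, h t = 0 := by
    intro t ht
    obtain ⟨⟨⟨a1, a2⟩, a3⟩, a4⟩ := ht
    have a1' : b e t = 0 := a1
    have a2' : b f t = 0 := a2
    have a3' : b (J e) t = 0 := a3
    have a4' : b (J f) t = 0 := a4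
    rw [hhdef, xx_apply, a1', a2', a3', a4']; simp
  obtain ⟨E, hE⟩ : ∃ E, E = xx b J e (J e) := ⟨_, rfl⟩
  obtain ⟨F, hF⟩ : ∃ F, F = xx b J f (J f) := ⟨_, rfl⟩
  have cE : h * E - E * h = (2 : ℝ) • E := by
    rw [hE, comm_xx b J h hsk hcJ, he, hJ', he]; module
  have cF : h * F - F * h = (-2 : ℝ) • F := by
    rw [hF, comm_xx b J h hsk hcJ, hf, hJ', hf, map_neg, xx_neg_left, xx_neg_right]; module
  have cet : ∀ t ∈ T0 b J e f, h * xx b J e t - xx b J e t * h = (1 : ℝ) • xx b J e t := by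
    intro t ht
    rw [comm_xx b J h hsk hcJ, he, h0 t ht, xx_zero_right]; module
  have cfs : ∀ t ∈ T0 b J e f, h * xx b J f t - xx b J f t * h = (-1 : ℝ) • xx b J f t := by
    intro t ht
    rw [comm_xx b J h hsk hcJ, hf, h0 t ht, xx_zero_right, xx_neg_left]; module
  have hne : ∀ w : T, ∀ v : T, b w v = 1 → w ≠ 0 := by
    rintro w v hwv rfl
    simp at hwv
  have hJe : J e ≠ 0 := hne (J e) (J f) (by rw [hH.isom]; exact hef.ef)
  have hJf : J f ≠ 0 := hne (J f) (J e) (by rw [hH.isom]; exact bfe)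
  have hE0 : E ≠ 0 := by
    intro h1
    have h2 := LinearMap.congr_fun h1 f
    rw [hE, xx_apply, bJef, hef.ef, hJJ, map_neg, LinearMap.neg_apply, hef.ef] at h2
    have h3 : (2 : ℝ) • J e = 0 := by
      have : (0 : Module.End ℝ T) f = 0 := rfl
      rw [this] at h2
      rw [← neg_eq_zero, ← h2]
      module
    exact hJe ((smul_eq_zero.mp h3).resolve_left two_ne_zero)
  have hF0 : F ≠ 0 := by
    intro h1
    have h2 := LinearMap.congr_fun h1 e
    rw [hF, xx_apply, bJfe, bfe, hJJ, map_neg, LinearMap.neg_apply, bfe] at h2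
    have h3 : (2 : ℝ) • J f = 0 := by
      have : (0 : Module.End ℝ T) e = 0 := rfl
      rw [this] at h2
      rw [← neg_eq_zero, ← h2]
      module
    exact hJf ((smul_eq_zero.mp h3).resolve_left two_ne_zero)
  rw [← hE, ← hF]
  constructor
  · intro hEg
    have h1 : ∃ y ∈ g, LinearMap.trace ℝ T (E * y) ≠ 0 := by
      by_contra hcon
      push Not at hcon
      exact hE0 (hg.trace E hEg hcon)
    obtain ⟨y, hy, hty⟩ := h1
    obtain ⟨t, s, α, β, z, ht, hs, het, hfs, hα, hβ, hz, hzh, hyy⟩ :=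
      hGR T b J g hg e f hef (hhdef ▸ hh) y hy
    rw [← hE, ← hF] at hyy
    rw [← hF] at hβ
    have t1 : LinearMap.trace ℝ T (E * E) = 0 := trace_zero h E E 2 2 cE cE (by norm_num)
    have t2 : LinearMap.trace ℝ T (E * xx b J e t) = 0 :=
      trace_zero h E _ 2 1 cE (cet t ht) (by norm_num)
    have t3 : LinearMap.trace ℝ T (E * z) = 0 :=
      trace_zero h E z 2 0 cE (by rw [zero_smul, hhdef, hzh, sub_self]) (by norm_num)
    have t4 : LinearMap.trace ℝ T (E * xx b J f s) = 0 :=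
      trace_zero h E _ 2 (-1) cE (cfs s hs) (by norm_num)
    have t5 : LinearMap.trace ℝ T (E * y) = β * LinearMap.trace ℝ T (E * F) := by
      rw [hyy]
      simp only [mul_add, mul_smul_comm, map_add, map_smul, t1, t2, t3, t4, smul_eq_mul]
      ring
    have hβ0 : β ≠ 0 := by
      rintro rfl
      rw [zero_mul] at t5
      exact hty t5
    have h2 := g.smul_mem β⁻¹ hβ
    rwa [smul_smul, inv_mul_cancel₀ hβ0, one_smul] at h2
  · intro hFg
    have h1 : ∃ y ∈ g, LinearMap.trace ℝ T (F * y) ≠ 0 := by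
      by_contra hcon
      push Not at hcon
      exact hF0 (hg.trace F hFg hcon)
    obtain ⟨y, hy, hty⟩ := h1
    obtain ⟨t, s, α, β, z, ht, hs, het, hfs, hα, hβ, hz, hzh, hyy⟩ :=
      hGR T b J g hg e f hef (hhdef ▸ hh) y hy
    rw [← hE, ← hF] at hyy
    rw [← hE] at hα
    have t1 : LinearMap.trace ℝ T (F * F) = 0 := trace_zero h F F (-2) (-2) cF cF (by norm_num)
    have t2 : LinearMap.trace ℝ T (F * xx b J e t) = 0 :=
      trace_zero h F _ (-2) 1 cF (cet t ht) (by norm_num)
    have t3 : LinearMap.trace ℝ T (F * z) = 0 :=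
      trace_zero h F z (-2) 0 cF (by rw [zero_smul, hhdef, hzh, sub_self]) (by norm_num)
    have t4 : LinearMap.trace ℝ T (F * xx b J f s) = 0 :=
      trace_zero h F _ (-2) (-1) cF (cfs s hs) (by norm_num)
    have t5 : LinearMap.trace ℝ T (F * y) = α * LinearMap.trace ℝ T (F * E) := by
      rw [hyy]
      simp only [mul_add, mul_smul_comm, map_add, map_smul, t1, t2, t3, t4, smul_eq_mul]
      ring
    have hα0 : α ≠ 0 := by
      rintro rfl
      rw [zero_mul] at t5
      exact hty t5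
    have h2 := g.smul_mem α⁻¹ hα
    rwa [smul_smul, inv_mul_cancel₀ hα0, one_smul] at h2

end Pool.Agent.W688.KU.DU
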