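import Pool.Agent.W516.KU.Defs

/-! KU-NORM (helper516): the normal form of a hyperbolic element commuting with `J`. -/

set_option autoImplicit false

namespace Pool.Agent.W688.KU.NORM

open Module Pool.Agent.W516.K3 Pool.Agent.W516.KU

section

variable {T : Type} [AddCommGroup T] [Module ℝ T]

lemma wdg_apply (b : T →ₗ[ℝ] T →ₗ[ℝ] ℝ) (u v t : T) :
    wdg b u v t = b v t • u - b u t • v := rfl

lemma xx_apply (b : T →ₗ[ℝ] T →ₗ[ℝ] ℝ) (J : Module.End ℝ T) (u v t : T) :
    xx b J u v t = (b v t • u - b u t • v) + (b (J v) t • J u - b (J u) t • J v) := rfl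

/-- `J` has no real eigenvector -/
lemma no_eig (J : Module.End ℝ T) (hJJ : ∀ w, J (J w) = -w) (e : T) (he : e ≠ 0) (c : ℝ)
    (h : J e = c • e) : False := by
  have h1 := hJJ e
  rw [h, map_smul, h, smul_smul] at h1
  have h2 : (c * c + 1) • e = 0 := by rw [add_smul, h1, one_smul, neg_add_cancel]
  rcases smul_eq_zero.mp h2 with h3 | h3
  · nlinarith
  · exact he h3

end

theorem T_NORM : Pool.Agent.W516.K3.S_NORM → Pool.Agent.W516.KU.S_NORM := by
  intro hN T _ _ _ b J hH hW y hs hyJ hy hy0
  have hJJ : ∀ w, J (J w) = -w := fun w => by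
    have := LinearMap.congr_fun hH.sq w
    simpa using this
  have bJl : ∀ u v, b (J u) v = -b u (J v) := by
    intro u v
    have h1 := hH.isom u (J v)
    rw [hJJ, map_neg] at h1
    linarith
  have bJs : ∀ u, b u (J u) = 0 := by
    intro u
    have h1 := bJl u u
    rw [hH.symm (J u) u] at h1
    linarith
  have hne : ∀ w : T, ∀ v : T, b w v = 1 → w ≠ 0 := by
    rintro w v hwv rfl
    simp at hwv
  have hyJ' : ∀ w, y (J w) = J (y w) := fun w => LinearMap.congr_fun hyJ w
  rcases hN T b hH.symm hH.nondeg hW y hs hy hy0 with ⟨e, f, a, ha, hee, hff, hef, hyy⟩ |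
    ⟨e₁, f₁, e₂, f₂, a₁, a₂, ha₂, ha₁₂, hyp, hyy⟩
  · exfalso
    have hfe : b f e = 1 := by rw [hH.symm]; exact hef
    have h1 : ∀ w, y w = a • (b f w • e - b e w • f) := fun w => by rw [hyy]; rfl
    have h2 : y e = a • e := by rw [h1, hfe, hee]; simp
    have h3 := hyJ' e
    rw [h1, h2, map_smul, bJs, zero_smul, sub_zero] at h3
    have h4 := (smul_right_injective T ha.ne') h3
    exact no_eig J hJJ e (hne e f hef) _ h4.symm
  · have e21 : b e₂ e₁ = 0 := by rw [hH.symm]; exact hyp.e12
    have f21 : b f₂ f₁ = 0 := by rw [hH.symm]; exact hyp.f12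
    have fe11 : b f₁ e₁ = 1 := by rw [hH.symm]; exact hyp.ef11
    have fe22 : b f₂ e₂ = 1 := by rw [hH.symm]; exact hyp.ef22
    have fe12 : b f₁ e₂ = 0 := by rw [hH.symm]; exact hyp.ef21
    have fe21 : b f₂ e₁ = 0 := by rw [hH.symm]; exact hyp.ef12
    have h1 : ∀ w, y w = a₁ • (b f₁ w • e₁ - b e₁ w • f₁) + a₂ • (b f₂ w • e₂ - b e₂ w • f₂) :=
      fun w => by rw [hyy]; rfl
    have ye : y e₁ = a₁ • e₁ := by
      rw [h1, fe11, hyp.e11, fe21, e21]; simp
    have ha₁ : 0 < a₁ := lt_of_lt_of_le ha₂ ha₁₂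
    have he₁ : e₁ ≠ 0 := hne e₁ f₁ hyp.ef11
    obtain ⟨w, hw⟩ : ∃ w, w = J e₁ := ⟨_, rfl⟩
    have yw : y w = a₁ • w := by rw [hw, hyJ', ye, map_smul]
    have be₁ : b e₁ w = 0 := by rw [hw]; exact bJs _
    have be₂ : b e₂ w = 0 := by
      have h2 := congrArg (b e₂) yw
      rw [h1] at h2
      simp only [map_add, map_sub, map_smul, smul_eq_mul, e21, hyp.ef21, hyp.e22, hyp.ef22] at h2
      have h3 : (a₁ + a₂) * b e₂ w = 0 := by linarith
      rcases mul_eq_zero.mp h3 with h4 | h4
      · linarith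
      · exact h4
    obtain ⟨c, hc⟩ : ∃ c, c = b f₁ w := ⟨_, rfl⟩
    obtain ⟨d, hd⟩ : ∃ d, d = b f₂ w := ⟨_, rfl⟩
    have hyw : a₁ • w = (a₁ * c) • e₁ + (a₂ * d) • e₂ := by
      rw [← yw, h1, be₁, be₂, ← hc, ← hd]
      module
    rcases lt_or_eq_of_le ha₁₂ with hlt | heq
    · exfalso
      have hd0 : d = 0 := by
        have h2 := congrArg (b f₂) hyw
        simp only [map_add, map_smul, smul_eq_mul, fe21, fe22, ← hd] at h2
        have h3 : (a₁ - a₂) * d = 0 := by linarith
        rcases mul_eq_zero.mp h3 with h4 | h4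
        · linarith
        · exact h4
      rw [hd0, mul_zero, zero_smul, add_zero, mul_smul] at hyw
      have h4 := (smul_right_injective T ha₁.ne') hyw
      exact no_eig J hJJ e₁ he₁ c (by rw [← hw]; exact h4)
    · rw [heq, mul_smul, mul_smul, ← smul_add] at hyw
      have hwcd : w = c • e₁ + d • e₂ := (smul_right_injective T ha₁.ne') hyw
      have hd0 : d ≠ 0 := by
        intro hd0
        rw [hd0, zero_smul, add_zero] at hwcd
        exact no_eig J hJJ e₁ he₁ c (by rw [← hw]; exact hwcd)
      obtain ⟨f, hf⟩ : ∃ f, f = f₁ - (c * d⁻¹) • f₂ := ⟨_, rfl⟩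
      have bef : b e₁ f = 1 := by
        rw [hf, map_sub, map_smul, hyp.ef11, hyp.ef12]; simp
      have bJef : b (J e₁) f = 0 := by
        rw [← hw, hwcd, hf]
        simp only [map_add, map_sub, map_smul, LinearMap.add_apply, LinearMap.smul_apply,
          smul_eq_mul, hyp.ef11, hyp.ef12, hyp.ef21, hyp.ef22]
        field_simp
        ring
      have bff : b f f = 0 := by
        rw [hf]
        simp only [map_sub, map_smul, LinearMap.sub_apply, LinearMap.smul_apply,
          smul_eq_mul, hyp.f11, hyp.f12, hyp.f22, f21]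
        ring
      have beJf : b e₁ (J f) = 0 := by
        have := bJl e₁ f
        rw [bJef] at this
        linarith
      -- `J f`
      have yf : y f = -(a₁ • f) := by
        rw [h1, hf]
        simp only [map_sub, map_smul, smul_eq_mul, hyp.ef11, hyp.ef12, hyp.ef21, hyp.ef22,
          hyp.f11, hyp.f12, hyp.f22, f21, heq]
        module
      obtain ⟨x, hx⟩ : ∃ x, x = J f := ⟨_, rfl⟩
      have yx : y x = -(a₁ • x) := by rw [hx, hyJ', yf, map_neg, map_smul]
      have bf₁ : b f₁ x = 0 := by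
        have h2 := congrArg (b f₁) yx
        rw [h1] at h2
        simp only [map_add, map_sub, map_smul, map_neg, smul_eq_mul, fe11, hyp.f11, fe12,
          hyp.f12] at h2
        have h3 : (a₁ + a₁) * b f₁ x = 0 := by linarith
        rcases mul_eq_zero.mp h3 with h4 | h4
        · linarith
        · exact h4
      have bf₂ : b f₂ x = 0 := by
        have h2 := congrArg (b f₂) yx
        rw [h1] at h2
        simp only [map_add, map_sub, map_smul, map_neg, smul_eq_mul, fe21, f21, fe22,
          hyp.f22, heq] at h2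
        have h3 : (a₁ + a₁) * b f₂ x = 0 := by linarith
        rcases mul_eq_zero.mp h3 with h4 | h4
        · linarith
        · exact h4
      have be₁x : b e₁ x = 0 := by rw [hx]; exact beJf
      obtain ⟨q, hq⟩ : ∃ q, q = b e₂ x := ⟨_, rfl⟩
      have hxq : x = q • f₂ := by
        have h2 : a₁ • x = a₁ • (q • f₂) := by
          have h3 : a₁ • x = -y x := by rw [yx, neg_neg]
          rw [h3, h1, bf₁, bf₂, be₁x, ← hq, heq]
          module
        exact (smul_right_injective T ha₁.ne') h2
      have hdq : d * q = 1 := by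
        have h2 := hH.isom e₁ f
        rw [bef, ← hw, ← hx, hxq, hwcd] at h2
        simp only [map_add, map_smul, LinearMap.add_apply, LinearMap.smul_apply,
          smul_eq_mul, hyp.ef12, hyp.ef22] at h2
        linarith
      have hq' : q = d⁻¹ := by
        field_simp
        linarith
      have hJe : J e₁ = c • e₁ + d • e₂ := by rw [← hw]; exact hwcd
      have hJf : J f = d⁻¹ • f₂ := by rw [← hx, hxq, hq']
      refine ⟨e₁, f, a₁, ha₁.ne', ⟨hyp.e11, bff, bef, beJf⟩, ?_⟩
      ext t
      rw [h1, LinearMap.smul_apply, xx_apply, hJe, hJf, hf, heq]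
      simp only [map_add, map_sub, map_smul, LinearMap.add_apply, LinearMap.sub_apply,
        LinearMap.smul_apply, smul_eq_mul]
      match_scalars <;> field_simp <;> ring

end Pool.Agent.W688.KU.NORM
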